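import Mathlib

/-!
# Project FN: strips (pieces Z3c and Z3d)
-/

set_option autoImplicit false

namespace Pool.Agent.Helper52.FN

open Finset

/-- The index of a point of the square. -/
def idx {q : ℕ} (x : ZMod q × ZMod q) : ℕ := x.2.val + x.1.val * q

lemma idx_div {q : ℕ} [NeZero q] (x : ZMod q × ZMod q) : idx x / q = x.1.val := by
  unfold idx
  rw [Nat.add_mul_div_right _ _ (NeZero.pos q), Nat.div_eq_of_lt (ZMod.val_lt x.2), zero_add]

lemma idx_mod {q : ℕ} [NeZero q] (x : ZMod q × ZMod q) : idx x % q = x.2.val := by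
  unfold idx
  rw [Nat.add_mul_mod_self_right, Nat.mod_eq_of_lt (ZMod.val_lt x.2)]

lemma idx_inj {q : ℕ} [NeZero q] : Function.Injective (idx (q := q)) := by
  intro x y h
  apply Prod.ext
  · apply ZMod.val_injective
    rw [← idx_div x, ← idx_div y, h]
  · apply ZMod.val_injective
    rw [← idx_mod x, ← idx_mod y, h]

/-- FN-Z3c (strips, mass). -/
theorem strip_mass {q : ℕ} [Fact q.Prime] (Γ : Finset (ZMod q × ZMod q)) (hΓ : Γ.card ≤ 3 * q)
    (c m : ℕ) :
    ((Γ ×ˢ (univ : Finset (ZMod q × ZMod q))).filter (fun y =>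
      c ≤ (y.1 + y.2).2.val + (y.1 + y.2).1.val * q ∧
        (y.1 + y.2).2.val + (y.1 + y.2).1.val * q < c + m)).card ≤ 3 * q * m := by
  have h1 : ((Γ ×ˢ (univ : Finset (ZMod q × ZMod q))).filter (fun y =>
      c ≤ (y.1 + y.2).2.val + (y.1 + y.2).1.val * q ∧
        (y.1 + y.2).2.val + (y.1 + y.2).1.val * q < c + m)).card
      ≤ (Γ ×ˢ Finset.Ico c (c + m)).card := by
    apply Finset.card_le_card_of_injOn (fun y => (y.1, idx (y.1 + y.2)))
    · intro y hy
      have hy' := Finset.mem_filter.mp (Finset.mem_coe.mp hy)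
      have h2 := Finset.mem_product.mp hy'.1
      apply Finset.mem_coe.mpr
      apply Finset.mem_product.mpr
      exact ⟨h2.1, Finset.mem_Ico.mpr hy'.2⟩
    · intro y _ y' _ h
      have h0 : y.1 = y'.1 ∧ idx (y.1 + y.2) = idx (y'.1 + y'.2) := Prod.mk.inj h
      have h3 : y.1 = y'.1 := h0.1
      have h4 : idx (y.1 + y.2) = idx (y'.1 + y'.2) := h0.2
      have h5 := idx_inj h4
      rw [h3] at h5
      exact Prod.ext h3 (add_left_cancel h5)
  refine h1.trans ?_
  rw [Finset.card_product, Nat.card_Ico, Nat.add_sub_cancel_left]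
  exact Nat.mul_le_mul_right m hΓ

/-- FN-Z3d (strips, at most six points for every shift). -/
theorem strip_six {q : ℕ} [Fact q.Prime] (Γ : Finset (ZMod q × ZMod q))
    (hcol : ∀ x : ZMod q, (Γ.filter (fun p => p.1 = x)).card ≤ 3) (c m : ℕ) (hm : m ≤ q)
    (v : ZMod q × ZMod q) :
    (Γ.filter (fun z => c ≤ (z + v).2.val + (z + v).1.val * q ∧
        (z + v).2.val + (z + v).1.val * q < c + m)).card ≤ 6 := by
  classical
  have hq : 0 < q := NeZero.pos q
  have hsub : (Γ.filter (fun z => c ≤ (z + v).2.val + (z + v).1.val * q ∧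
        (z + v).2.val + (z + v).1.val * q < c + m)) ⊆
      Γ.filter (fun p => p.1 = ((c / q : ℕ) : ZMod q) - v.1) ∪
        Γ.filter (fun p => p.1 = ((c / q + 1 : ℕ) : ZMod q) - v.1) := by
    intro z hz
    rw [Finset.mem_filter] at hz
    obtain ⟨hzΓ, h1, h2⟩ := hz
    have hd : idx (z + v) / q = (z + v).1.val := idx_div _
    have h1' : c / q ≤ (z + v).1.val := by
      rw [← hd]; exact Nat.div_le_div_right h1
    have h2' : (z + v).1.val ≤ c / q + 1 := by
      rw [← hd, ← Nat.add_div_right _ hq]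
      apply Nat.div_le_div_right
      have : idx (z + v) < c + m := h2
      omega
    have h3 : (z + v).1.val = c / q ∨ (z + v).1.val = c / q + 1 := by omega
    have hcast : (((z + v).1.val : ℕ) : ZMod q) = z.1 + v.1 := by
      rw [ZMod.natCast_zmod_val]; rfl
    rw [Finset.mem_union, Finset.mem_filter, Finset.mem_filter]
    rcases h3 with h3 | h3
    · left
      refine ⟨hzΓ, ?_⟩
      rw [h3] at hcast
      rw [hcast]; ring
    · right
      refine ⟨hzΓ, ?_⟩
      rw [h3] at hcast
      rw [hcast]; ring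
  refine (Finset.card_le_card hsub).trans ((Finset.card_union_le _ _).trans ?_)
  have ha := hcol (((c / q : ℕ) : ZMod q) - v.1)
  have hb := hcol (((c / q + 1 : ℕ) : ZMod q) - v.1)
  omega

end Pool.Agent.Helper52.FN
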